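import Mathlib
import Pool.Agent.H.MP_debbfb_al.A

set_option autoImplicit false

namespace Pool.Agent.H.MP_ead43b_al
open Pool.Agent.H.MP_1d00e6_al Pool.Agent.H.MP_debbfb_al Multiplicative

abbrev Z := Multiplicative ℤ

structure St where
  Q : Type
  I : Type
  [gQ : Group Q]
  [fQ : Finite Q]
  [fI : Finite I]
  pQ : IsPGroup 2 Q
  σ : Q →* Equiv.Perm I
  u : I → ℤ
  hu : ∀ i, |u i| ≤ 2

attribute [instance] St.gQ St.fQ St.fI

abbrev St.G (X : St) := Wr X.σ Z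

def St.act (X : St) (g : X.G) (s : X.I → ℤ) : X.I → ℤ := fun i => (g.f i).toAdd + s (X.σ g.a⁻¹ i)

lemma St.act_mul (X : St) (g h : X.G) (s : X.I → ℤ) : X.act (g * h) s = X.act g (X.act h s) := by
  funext i; simp [St.act, add_assoc]
lemma St.act_one (X : St) (s : X.I → ℤ) : X.act 1 s = s := by funext i; simp [St.act]

def St.stab (X : St) (s : X.I → ℤ) : Subgroup X.G where
  carrier := {g | X.act g s = s}
  one_mem' := X.act_one s
  mul_mem' {g h} hg hh := by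
    change _ = _ at hg hh
    change _ = _
    rw [X.act_mul, hh, hg]
  inv_mem' {g} hg := by
    change _ = _ at hg
    change _ = _
    conv_lhs => rw [← hg, ← X.act_mul, inv_mul_cancel, X.act_one]

lemma St.stab_p (X : St) (s : X.I → ℤ) : IsPGroup 2 (X.stab s) :=
  X.pQ.of_injective (Wr.pr.comp (X.stab s).subtype) ((injective_iff_map_eq_one _).2 fun g hg => by
    have h1 : g.1.a = 1 := hg
    refine Subtype.ext (Wr.ext (funext fun i => ?_) h1)
    have := congrFun g.2 i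
    simpa [St.act, h1] using this)

instance (X : St) : Group.IsSolvable X.G := by
  have := X.pQ.isNilpotent
  exact Group.isSolvable_of_ker_le_range Wr.inl Wr.pr fun x hx => ⟨x.f, Wr.ext rfl (Eq.symm hx)⟩

abbrev R := Wr (sh 4) (Multiplicative (ZMod 2))
abbrev J := ZMod 4 × ZMod 2
def ρ : R →* Equiv.Perm J := wa (sh 4) (sh 2)

lemma pR : IsPGroup 2 R :=
  Wr.pgroup (IsPGroup.of_card (n := 1) (by simp)) (IsPGroup.of_card (n := 2) (by simp))

def sg (e : ZMod 2) : ℤ := if e = 0 then -1 else 1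
def cf (n : ℤ) (z : J) : ℤ := sg z.2 * (((z.1.val : ℤ) - n) / 4)
def ta (n : ℤ) : R := Wr.inr (ofAdd (n : ZMod 4))
def T (y : ℤ) (z : J) : ℤ := cf (y + 2) z + (z.2.val : ℤ)

lemma ta_add (n m : ℤ) : ta (n + m) = ta n * ta m := by simp [ta, ← map_mul]
lemma ρ_ta (n : ℤ) (z : J) : ρ (ta n)⁻¹ z = (z.1 - n, z.2) := by
  rw [ta, ← map_inv]
  exact Prod.ext (neg_add_eq_sub (n : ZMod 4) z.1) (zero_add _)

lemma cf_add (n m : ℤ) (z : J) : cf (n + m) z = cf n z + cf m (z.1 - n, z.2) := by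
  have : (((z.1 - n).val : ℕ) : ℤ) = ((z.1.val : ℤ) - n) % 4 := by
    rw [← show (((z.1.val : ℤ) - n : ℤ) : ZMod 4) = z.1 - n by simp]
    exact ZMod.val_intCast _
  simp only [cf, this, ← mul_add]
  congr 1
  omega

lemma T_le (n : ℕ) (y : ℤ) (h : |y| ≤ n + 3) (z : J) : |T y z| ≤ n + 2 := by
  obtain ⟨j, e⟩ := z
  have := ZMod.val_lt j
  rw [abs_le] at h ⊢
  rcases (by decide : ∀ e : ZMod 2, e = 0 ∨ e = 1) e with rfl | rfl
  · simp only [T, cf, sg, if_true, ZMod.val_zero]; omega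
  · simp only [T, cf, sg, one_ne_zero, if_false, ZMod.val_one]; omega

def sw (y : ℤ) : R := Wr.inl fun j => ofAdd (if (j.val : ℤ) < y + 2 then 1 else 0)

lemma T_sw (y : ℤ) (h : |y| ≤ 2) : ∀ z : J, T y (ρ (sw y) z) = z.2.val := by
  rw [abs_le] at h
  obtain ⟨h1, h2⟩ := h
  interval_cases y <;> decide

def up (X : St) : St where
  Q := Wr X.σ R
  I := X.I × J
  pQ := Wr.pgroup pR X.pQ
  σ := wa X.σ ρ
  u z := T (X.u z.1) z.2
  hu z := T_le 0 _ ((X.hu _).trans (by norm_num)) _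

lemma up_σ (X : St) (x : Wr X.σ R) (z : X.I × J) :
    (up X).σ x⁻¹ z = (X.σ x.a⁻¹ z.1, ρ (x.f z.1)⁻¹ z.2) := by
  refine (wa_ap X.σ ρ x⁻¹ z).trans ?_
  simp

def φ (X : St) : X.G →* (up X).G where
  toFun g := ⟨fun z => ofAdd (cf (g.f z.1).toAdd z.2), ⟨fun i => ta (g.f i).toAdd, g.a⟩⟩
  map_one' := Wr.ext (funext fun z => by
      have := ZMod.val_lt z.2.1
      change ofAdd (sg _ * ((_ - 0) / 4)) = 1
      rw [show ((z.2.1.val : ℤ) - 0) / 4 = 0 by omega]; simp)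
    (Wr.ext (funext fun i => by simp [ta]; rfl) rfl)
  map_mul' g h := Wr.ext (funext fun z => by
      refine Eq.trans ?_ (mul_f _ _ z).symm
      rw [up_σ, ρ_ta]
      exact congrArg ofAdd (cf_add ..))
    (Wr.ext (funext fun i => ta_add ..) rfl)

lemma φ_act (X : St) (g : X.G) (s : X.I → ℤ) :
    (up X).act (φ X g) (fun z => T (s z.1) z.2) = fun z => T (X.act g s z.1) z.2 := by
  funext z
  change cf _ _ + T (s ((up X).σ _ z).1) ((up X).σ _ z).2 = _
  rw [up_σ]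
  change _ + T _ (ρ (ta _)⁻¹ _) = _
  rw [ρ_ta, T, T, St.act, add_assoc _ _ 2, cf_add (toAdd (g.f z.1)), add_assoc]
  rfl

lemma φ_inj (X : St) : Function.Injective (φ X) :=
  (injective_iff_map_eq_one _).2 fun g hg => Wr.ext (funext fun i => by
    have h1 : cf (g.f i).toAdd (0, 0) = 0 := congrFun (congrArg Wr.f hg) (i, 0, 0)
    have h2 : cf (g.f i).toAdd (3, 0) = 0 := congrFun (congrArg Wr.f hg) (i, 3, 0)
    simp only [cf, sg, if_true, ZMod.val_zero, show (3 : ZMod 4).val = 3 from rfl] at h1 h2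
    exact toAdd_eq_zero.1 (by omega)) (congrArg (fun z => z.a.a) hg)

lemma φ_B (X : St) : (X.stab 0).map (φ X) ≤ (up X).stab 0 := by
  rintro _ ⟨g, hg, rfl⟩
  funext z
  have h1 : (g.f z.1).toAdd = 0 := (add_zero _).symm.trans (congrFun hg z.1)
  have := ZMod.val_lt z.2.1
  change sg _ * ((_ - (g.f z.1).toAdd) / 4) + 0 = 0
  rw [h1, show ((z.2.1.val : ℤ) - 0) / 4 = 0 by omega]; simp

lemma φ_A (X : St) : (X.stab X.u).map (φ X) ≤ (up X).stab (up X).u := by
  rintro _ ⟨g, hg, rfl⟩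
  exact (φ_act X g X.u).trans (by rw [show X.act g X.u = X.u from hg]; rfl)

lemma φ_AB (X : St) (g : X.G) (h : ∀ i, |X.act g X.u i| ≤ 2) :
    ∃ b ∈ (up X).stab 0, ∃ a ∈ (up X).stab (up X).u, φ X g = b * a := by
  let c : (X.I → ℤ) → (up X).G := fun s => Wr.inr (Wr.inl fun i => sw (s i))
  have hc : ∀ s : X.I → ℤ, (∀ i, |s i| ≤ 2) →
      (up X).act (c s)⁻¹ (fun z => T (s z.1) z.2) = fun z => (z.2.2.val : ℤ) := fun s hs => by
    funext z
    change (1 : Z)⁻¹.toAdd + T (s ((up X).σ (c s).a⁻¹⁻¹ z).1) ((up X).σ (c s).a⁻¹⁻¹ z).2 = _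
    have : (up X).σ (c s).a z = (z.1, ρ (sw (s z.1)) z.2) := by
      change (X.σ 1 z.1, ρ (sw (s (X.σ 1 z.1))) z.2) = _
      rw [map_one]; rfl
    rw [inv_inv, this, T_sw _ (hs _)]
    simp
  have h0 : ∀ s, c s ∈ (up X).stab 0 := fun s => funext fun z => add_zero _
  refine ⟨c (X.act g X.u) * (c X.u)⁻¹, mul_mem (h0 _) (inv_mem (h0 _)),
    c X.u * (c (X.act g X.u))⁻¹ * φ X g, ?_, by group⟩
  change (up X).act _ (fun z => T (X.u z.1) z.2) = fun z => T (X.u z.1) z.2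
  rw [St.act_mul, φ_act, St.act_mul, hc _ h, ← hc _ X.hu, ← St.act_mul, mul_inv_cancel,
    St.act_one]

def sq : ℕ → St
  | 0 => { Q := Unit, I := Unit, pQ := IsPGroup.of_card (n := 0) (by simp), σ := 1, u := 0
           hu := by simp }
  | n + 1 => up (sq n)

def ψ (n : ℕ) : (sq n).G →* (sq (n + 1)).G := φ (sq n)

open Pool.Agent.H.MP_7538d4_al in
lemma cover (k : ℕ) : ∀ (n : ℕ) (g : (sq n).G), (∀ i, |(sq n).act g (sq n).u i| ≤ k + 2) →
    ∃ b ∈ uni ψ (fun n => (sq n).stab 0), ∃ a ∈ uni ψ (fun n => (sq n).stab (sq n).u),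
      jG ψ n g = b * a := by
  induction k with
  | zero =>
    intro n g h
    obtain ⟨b, hb, a, ha, e⟩ := φ_AB _ g (by simpa using h)
    exact ⟨_, mem_uni _ _ (n + 1) hb, _, mem_uni _ _ (n + 1) ha, by
      rw [← jG_b, ← map_mul]; exact congrArg _ e⟩
  | succ k ih =>
    intro n g h
    rw [← jG_b]
    refine ih (n + 1) _ fun z => ?_
    rw [show (sq (n + 1)).act (ψ n g) (sq (n + 1)).u z = _ from congrFun (φ_act _ g _) z]
    exact T_le k _ (by have := h z.1; push_cast at this; omega) _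

end Pool.Agent.H.MP_ead43b_al
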